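import Pool.Agent.helper58.BR.SpecN

/-!
# Project BR (MP_baa4d7_al), block N, row PPL
-/

set_option autoImplicit false

namespace Pool.Agent.BR

open Pool.Agent.helper58.DC Pool.Agent.DI Pool.Agent.GR Pool.Agent.OB Pool.Agent.DR Pool.Agent.FI Pool.Agent.FI3 Pool.Agent.FI4 Pool.Agent.LE

/-- `u` is a power of `u ^ s` if `u` has order a power of `p` and `p` does not divide `s`. -/
theorem PPL_pow {G : Type} [Group G] (p : ℕ) (hp : p.Prime) (u : G) (k : ℕ) (hu : u ^ p ^ k = 1)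
    (s : ℕ) (hs : ¬ p ∣ s) : ∃ t : ℕ, (u ^ s) ^ t = u := by
  have hco : Nat.Coprime s (p ^ k) := (Nat.Coprime.pow_left k ((Nat.Prime.coprime_iff_not_dvd hp).2 hs)).symm
  have hco2 : Nat.Coprime (orderOf u) s := (Nat.Coprime.coprime_dvd_right (orderOf_dvd_of_pow_eq_one hu) hco).symm
  exact exists_pow_eq_self_of_coprime hco2.symm

theorem PPL_Cz {G : Type} [Group G] (p : ℕ) (hp : p.Prime) (u : G) (k : ℕ) (hu : u ^ p ^ k = 1)
    (s : ℕ) (hs : ¬ p ∣ s) : Cz (⊤ : Subgroup G) (u ^ s) = Cz (⊤ : Subgroup G) u := by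
  obtain ⟨t, ht⟩ := PPL_pow p hp u k hu s hs
  ext x
  rw [mem_Cz, mem_Cz]
  constructor
  · rintro ⟨hx, h⟩
    refine ⟨hx, ?_⟩
    have h1 : Commute (u ^ s) x := h
    have h2 := h1.pow_left t
    rw [ht] at h2
    exact h2
  · rintro ⟨hx, h⟩
    have h1 : Commute u x := h
    exact ⟨hx, h1.pow_left s⟩

theorem PPL_Czi {G : Type} [Group G] (u : G) : Cz (⊤ : Subgroup G) u⁻¹ = Cz (⊤ : Subgroup G) u := by
  ext x
  rw [mem_Cz, mem_Cz]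
  constructor
  · rintro ⟨hx, h⟩
    have h1 : Commute u⁻¹ x := h
    have h2 := h1.inv_left
    rw [inv_inv] at h2
    exact ⟨hx, h2⟩
  · rintro ⟨hx, h⟩
    have h1 : Commute u x := h
    exact ⟨hx, h1.inv_left⟩

theorem PPL (hPPX : PPX_stmt) (hZPL : ZPL_stmt) (hQRS : QRS_stmt) (hQCE : QCE_stmt) : PPL_stmt := by
  classical
  intro p M hM G _ _ D x θ χ hlo u hu ψ hψ ψ' hψ' n hn hun ζ hζ
  have : NeZero n := ⟨hn.ne'⟩
  obtain ⟨k, hk⟩ := hlo.rt.dfa.pgrp ⟨u, hu⟩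
  have hk' : u ^ p ^ k = 1 := congrArg Subtype.val hk
  have hzK : u ∈ Cz (⊤ : Subgroup G) u := mem_Cz.2 ⟨Subgroup.mem_top u, rfl⟩
  have hcen : Cen (Cz (⊤ : Subgroup G) u) u := fun l hl => ((mem_Cz.1 hl).2).symm
  have hpow : ∀ φ ∈ IrrOn (Cz (⊤ : Subgroup G) u), ∀ s : ℕ, φ (u ^ s) / φ 1 = (φ u / φ 1) ^ s := by
    intro φ hφ s
    have h0 : φ 1 ≠ 0 := IrrOn_ne hφ
    induction s with
    | zero => rw [pow_zero, pow_zero, div_self h0]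
    | succ s ih =>
      have h1 := (hQCE G (Cz (⊤ : Subgroup G) u) u hzK hcen φ hφ).1 (u ^ s)
      rw [pow_succ' (φ u / φ 1), ← ih, pow_succ' u, div_mul_div_comm, ← h1, mul_div_mul_right _ _ h0]
  have hroot : ∀ φ ∈ IrrOn (Cz (⊤ : Subgroup G) u), ∃ e : ℕ, φ u / φ 1 = ζ ^ e := by
    intro φ hφ
    have h1 := hpow φ hφ n
    rw [hun, div_self (IrrOn_ne hφ)] at h1
    obtain ⟨i, -, hi⟩ := hζ.eq_pow_of_pow_eq_one h1.symm
    exact ⟨i, hi.symm⟩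
  have hr : ∀ φ ∈ Bl M (Cz (⊤ : Subgroup G) u) θ, ∃ P : Polynomial ℤ, ∀ s : ℕ,
      (Nat.card D : ℂ) * az p (Cz (⊤ : Subgroup G) u) φ ψ' (u⁻¹ ^ s) = Polynomial.aeval (ζ ^ s) P := by
    intro φ hφ
    have hz : u⁻¹ ∈ D := D.inv_mem hu
    have hzn : u⁻¹ ^ n = 1 := by rw [inv_pow, hun, inv_one]
    have h := hZPL p M hM G D x θ χ hlo u⁻¹ hz φ (by rw [PPL_Czi]; exact hφ) ψ' hψ' n hn hzn ζ hζ
    rw [PPL_Czi] at h
    exact h
  have hm := (hQRS G ⊤ (Cz (⊤ : Subgroup G) u) le_top ψ hψ).1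
  choose! e he using hroot
  choose! m hm using hm
  choose! P hP using hr
  have hfin : (Bl M (Cz (⊤ : Subgroup G) u) θ).Finite := (IrrOn_fin (Cz (⊤ : Subgroup G) u)).subset fun φ h => h.1
  refine ⟨∑ φ ∈ hfin.toFinset, Polynomial.C ((m φ : ℤ)) * Polynomial.X ^ (e φ) * P φ, ?_⟩
  intro s hs
  rw [hPPX p M G θ (u ^ s) ψ hψ ψ', PPL_Cz p hM.1 u k hk' s hs,
    finsum_mem_eq_finite_toFinset_sum _ hfin, map_sum, Finset.mul_sum]
  refine Finset.sum_congr rfl fun φ hφ => ?_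
  have hφ0 : φ ∈ Bl M (Cz (⊤ : Subgroup G) u) θ := (Set.Finite.mem_toFinset hfin).1 hφ
  have hφ1 : φ ∈ IrrOn (Cz (⊤ : Subgroup G) u) := hφ0.1
  rw [hpow φ hφ1 s, hm φ hφ1, he φ hφ1, map_mul, map_mul, map_pow, Polynomial.aeval_C, Polynomial.aeval_X, ← pow_mul,
    ← pow_mul, mul_comm (e φ) s]
  have h1 := hP φ hφ0 s
  have h2 : (algebraMap ℤ ℂ) ((m φ : ℤ)) = (m φ : ℂ) := by
    simp
  rw [h2, ← h1, inv_pow]
  ring

end Pool.Agent.BR
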