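import Pool.Agent.helper45.BR.Spec

set_option autoImplicit false

open Complex Metric Set Filter Topology MeasureTheory MPS Pool.Agent.helper98.ILF
  Pool.Agent.helper16.Multibrot

noncomputable section

namespace BR

theorem SEQ : SEQ_stmt := by
  intro g U hR
  have hpos : ∀ j : ℕ, (0 : ℝ) < 1 / ((j : ℝ) + 1) := fun j => by positivity
  have hne : (Uᶜ : Set ℂ).Nonempty := by
    refine ⟨4, fun h => ?_⟩
    have := hR.bd h
    simp at this
  set K : ℕ → Set ℂ := fun j => closedBall (0 : ℂ) 4 ∩ {z | 1 / ((j : ℝ) + 1) ≤ infDist z Uᶜ} with hK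
  have hKc : ∀ j, IsCompact (K j) := fun j =>
    (isCompact_closedBall (0 : ℂ) 4).inter_right (isClosed_le continuous_const (continuous_infDist_pt _))
  have hKU : ∀ j, K j ⊆ U := by
    intro j z hz
    by_contra hzU
    have h1 : infDist z Uᶜ = 0 := infDist_zero_of_mem hzU
    have h2 : 1 / ((j : ℝ) + 1) ≤ infDist z Uᶜ := hz.2
    rw [h1] at h2
    exact absurd (hpos j) (not_lt.2 h2)
  choose m hm1 hm2 using fun j : ℕ => hR.rc (K j) (hKU j) (hKc j) (1 / ((j : ℝ) + 1)) (hpos j) j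
  refine ⟨m, tendsto_atTop_mono hm1 tendsto_id, ?_⟩
  intro L hLU hL ε hε
  have hdist : ∃ δ > (0 : ℝ), ∀ z ∈ L, δ ≤ infDist z Uᶜ := by
    rcases L.eq_empty_or_nonempty with h | h
    · exact ⟨1, one_pos, fun z hz => by simp [h] at hz⟩
    · obtain ⟨z₀, hz₀, hmin⟩ := hL.exists_isMinOn h (continuous_infDist_pt Uᶜ).continuousOn
      refine ⟨infDist z₀ Uᶜ, ?_, fun z hz => hmin hz⟩
      exact (hR.op.isClosed_compl.notMem_iff_infDist_pos hne).1 (fun h' => h' (hLU hz₀))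
  obtain ⟨δ, hδ, hδL⟩ := hdist
  obtain ⟨N, hN⟩ := exists_nat_one_div_lt (lt_min hδ hε)
  filter_upwards [eventually_ge_atTop N] with j hj z hz
  have h3 : 1 / ((j : ℝ) + 1) ≤ 1 / ((N : ℝ) + 1) := by
    apply one_div_le_one_div_of_le (by positivity)
    have : (N : ℝ) ≤ j := by exact_mod_cast hj
    linarith
  have h4 : z ∈ K j := by
    refine ⟨ball_subset_closedBall (hR.bd (hLU hz)), ?_⟩
    have := hδL z hz
    have h5 : (1 : ℝ) / ((N : ℝ) + 1) < δ := lt_of_lt_of_le hN (min_le_left _ _)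
    show 1 / ((j : ℝ) + 1) ≤ infDist z Uᶜ
    linarith
  have h6 : (1 : ℝ) / ((N : ℝ) + 1) < ε := lt_of_lt_of_le hN (min_le_right _ _)
  exact (hm2 j z h4).trans (h3.trans h6.le)

end BR
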